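import Pool.Agent.TH107.RF.CosetZD
import Pool.Agent.TH107.RF.Conv

set_option autoImplicit false

namespace Pool.Agent.Results.MP_7b9603_al.ConstantLabelClasses

/-- The Artin group of a finite Coxeter matrix; an entry `0` stands for the label infinity, that is,
for no relation. -/
abbrev ArtinGroup {n : ℕ} (M : CoxeterMatrix (Fin n)) : Type :=
  PresentedGroup
    {r : FreeGroup (Fin n) | ∃ i j : Fin n, M.M i j ≠ 0 ∧
      r = ((List.range (M.M i j)).map
              (fun k => if Even k then FreeGroup.of i else FreeGroup.of j)).prod *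
          (((List.range (M.M i j)).map
              (fun k => if Even k then FreeGroup.of j else FreeGroup.of i)).prod)⁻¹}

/-- Let `M` be a Coxeter matrix such that no three distinct generators `i, j, k` have `m_ij` and
`m_jk` finite and at least three and `m_ik` finite, and suppose that the generators fall into classes
(the values of `κ`) such that two generators of different classes have label two or infinity and two
generators of the same class `c` have label `m c` or infinity, where `m c` is at least three. Then
the group algebra of the Artin group over any field has no zero divisors. -/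
theorem result : ∀ (n : ℕ) (M : CoxeterMatrix (Fin n)),
    (∀ i j k : Fin n, i ≠ k → 3 ≤ M.M i j → 3 ≤ M.M j k → M.M i k = 0) →
    ∀ (κ : Fin n → ℕ) (m : ℕ → ℕ), (∀ c, 3 ≤ m c) →
      (∀ i j, i ≠ j → κ i = κ j → M.M i j = 0 ∨ M.M i j = m (κ i)) →
      (∀ i j, κ i ≠ κ j → M.M i j = 0 ∨ M.M i j = 2) →
      ∀ (K : Type) [Field K] (x y : MonoidAlgebra K (ArtinGroup M)), x ≠ 0 → y ≠ 0 →
        x * y ≠ 0 := by
  intro n M hR
  have key : ∀ R : Set (FreeGroup (Fin n)), R = Pool.Agent.TH107.RF.rels M →
      ∀ (κ : Fin n → ℕ) (m : ℕ → ℕ), (∀ c, 3 ≤ m c) →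
        (∀ i j, i ≠ j → κ i = κ j → M.M i j = 0 ∨ M.M i j = m (κ i)) →
        (∀ i j, κ i ≠ κ j → M.M i j = 0 ∨ M.M i j = 2) →
        ∀ (K : Type) [Field K] (x y : MonoidAlgebra K (PresentedGroup R)), x ≠ 0 → y ≠ 0 →
          x * y ≠ 0 := by
    rintro R rfl κ m hm hin hout K _ x y hx hy hxy
    rcases Pool.Agent.TH107.RF.nzd_of_LI
      (Pool.Agent.TH107.RF.li_homog hR m hm hin hout) K x y hxy with h | h
    · exact hx h
    · exact hy h
  exact key _ (Pool.Agent.TH107.RF.rels_eq M)

end Pool.Agent.Results.MP_7b9603_al.ConstantLabelClasses
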