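import Pool.Agent.TH107.RF.CosetZD
import Pool.Agent.TH107.RF.Conv

set_option autoImplicit false

namespace Pool.Agent.Results.MP_7b9603_al.PureCosets

/-- The Artin group of a finite Coxeter matrix; an entry `0` stands for the label infinity, that is,
for no relation. -/
abbrev ArtinGroup {n : ℕ} (M : CoxeterMatrix (Fin n)) : Type :=
  PresentedGroup
    {r : FreeGroup (Fin n) | ∃ i j : Fin n, M.M i j ≠ 0 ∧
      r = ((List.range (M.M i j)).map
              (fun k => if Even k then FreeGroup.of i else FreeGroup.of j)).prod *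
          (((List.range (M.M i j)).map
              (fun k => if Even k then FreeGroup.of j else FreeGroup.of i)).prod)⁻¹}

/-- Let `M` be a Coxeter matrix such that no three distinct generators `i, j, k` have `m_ij` and
`m_jk` finite and at least three and `m_ik` finite, and let `π` be the homomorphism from the Artin
group to the Coxeter group, whose kernel is the pure Artin group. For every
field `K`, a nonzero element of the group algebra of the Artin group over `K` whose support lies in
one coset of the pure Artin group is neither a left nor a right zero divisor. -/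
theorem result : ∀ (n : ℕ) (M : CoxeterMatrix (Fin n)),
    (∀ i j k : Fin n, i ≠ k → 3 ≤ M.M i j → 3 ≤ M.M j k → M.M i k = 0) →
    ∃ π : ArtinGroup M →* M.Group, (∀ i : Fin n, π (PresentedGroup.of i) = M.simple i) ∧
      ∀ (K : Type) [Field K] (x y : MonoidAlgebra K (ArtinGroup M)), x ≠ 0 → y ≠ 0 →
        (∃ g : ArtinGroup M, ∀ h ∈ x.coeff.support, g⁻¹ * h ∈ π.ker) →
        x * y ≠ 0 ∧ y * x ≠ 0 := by
  intro n M hR
  have key : ∀ R : Set (FreeGroup (Fin n)), R = Pool.Agent.TH107.RF.rels M →
      ∃ π : PresentedGroup R →* M.Group, (∀ i : Fin n, π (PresentedGroup.of i) = M.simple i) ∧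
        ∀ (K : Type) [Field K] (x y : MonoidAlgebra K (PresentedGroup R)), x ≠ 0 → y ≠ 0 →
          (∃ g : PresentedGroup R, ∀ h ∈ x.coeff.support, g⁻¹ * h ∈ π.ker) →
          x * y ≠ 0 ∧ y * x ≠ 0 := by
    rintro R rfl
    refine ⟨Pool.Agent.TH107.RF.toCox M, fun i => Pool.Agent.TH107.RF.toCox_sg M i, ?_⟩
    intro K _ x y hx hy hg
    obtain ⟨g, hg⟩ := hg
    exact Pool.Agent.TH107.RF.coset_nzd (Pool.Agent.TH107.RF.toCox M).ker
      (Pool.Agent.TH107.RF.uniqueProds_of_LI (Pool.Agent.TH107.RF.li_ker hR)) g x y hg hx hy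
  exact key _ (Pool.Agent.TH107.RF.rels_eq M)

end Pool.Agent.Results.MP_7b9603_al.PureCosets
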